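import Pool.Agent.N656.MD.Stm
import Pool.Agent.N277.MH.GEN

/-!
# Project MD (helper656), part VUP: transfer of the upper bound (helper695)
-/

set_option autoImplicit false

namespace Pool.Agent.N695.MD

open Filter MeasureTheory Set Topology
open Pool.Agent.N656.MH Pool.Agent.N656.MD Pool.Agent.N277.MH

lemma sub_image (p q : ℕ) (hq : 1 ≤ q) (τ τ' : ℝ) (hττ : τ' < τ) (a b : ℝ) (ha : 0 < a) :
    V p q τ ∩ Icc a b ⊆ (fun β : ℝ => β ^ q) '' (W ((p : ℝ) / q) τ') := by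
  rintro lam ⟨hV, hab⟩
  have hlam : 0 < lam := lt_of_lt_of_le ha hab.1
  have hq0 : (q : ℝ) ≠ 0 := by exact_mod_cast (by omega : q ≠ 0)
  refine ⟨lam ^ ((1 : ℝ) / q), ?_, ?_⟩
  · set β : ℝ := lam ^ ((1 : ℝ) / q) with hβ
    have hβ0 : 0 < β := Real.rpow_pos_of_pos hlam _
    have hβq : 0 < β ^ (q - 1) := by positivity
    have ht : Tendsto (fun x : ℕ => β ^ (q - 1) * (x : ℝ) ^ (τ - τ')) atTop atTop :=
      Tendsto.const_mul_atTop hβq ((tendsto_rpow_atTop (by linarith)).comp tendsto_natCast_atTop_atTop)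
    have hev : ∀ᶠ x : ℕ in atTop, 1 ≤ β ^ (q - 1) * (x : ℝ) ^ (τ - τ') ∧ 1 ≤ x :=
      (ht.eventually_ge_atTop 1).and (eventually_ge_atTop 1)
    refine (hV.and_eventually hev).mono ?_
    rintro x ⟨⟨y, hy⟩, h1, hx⟩
    have hx0 : (0 : ℝ) < x := by exact_mod_cast hx
    set u : ℝ := β * (x : ℝ) ^ ((p : ℝ) / q) with hu
    have hu0 : 0 < u := by positivity
    have hBq : u ^ q = lam * (x : ℝ) ^ p := B_pow hlam p q hq x
    have hlb := pow_diff_lb q hq (y := (y : ℝ)) (B := u) (Nat.cast_nonneg _) hu0.le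
    rw [hBq] at hlb
    have h4 : dn u ≤ |(y : ℝ) - u| := by
      have := dn_le u (y : ℤ)
      exact_mod_cast this
    have hB1 : u ^ (q - 1) = β ^ (q - 1) * ((x : ℝ) ^ ((p : ℝ) - p / q - 1) * (x : ℝ)) := B_pow1 p q hq hx
    have hX : 0 < (x : ℝ) ^ ((p : ℝ) - p / q - 1) := Real.rpow_pos_of_pos hx0 _
    have e1 : (x : ℝ) ^ ((p : ℝ) - p / q - τ) =
        (x : ℝ) ^ ((p : ℝ) - p / q - 1) * (x : ℝ) * (x : ℝ) ^ (-τ) := by
      nth_rewrite 3 [← Real.rpow_one (x : ℝ)]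
      rw [← Real.rpow_add hx0, ← Real.rpow_add hx0]
      congr 1
      ring
    have e2 : (x : ℝ) ^ (-τ') = (x : ℝ) ^ (-τ) * (x : ℝ) ^ (τ - τ') := by
      rw [← Real.rpow_add hx0]
      congr 1
      ring
    refine lt_of_le_of_lt h4 ?_
    by_contra hc
    rw [not_lt] at hc
    have h5 : u ^ (q - 1) * (x : ℝ) ^ (-τ') ≤ u ^ (q - 1) * |(y : ℝ) - u| :=
      mul_le_mul_of_nonneg_left hc (by positivity)
    have h6 : (x : ℝ) ^ ((p : ℝ) - p / q - τ) ≤ u ^ (q - 1) * (x : ℝ) ^ (-τ') := by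
      rw [hB1, e1, e2]
      have h7 : 0 < (x : ℝ) ^ ((p : ℝ) - p / q - 1) * (x : ℝ) * (x : ℝ) ^ (-τ) := by positivity
      calc (x : ℝ) ^ ((p : ℝ) - p / q - 1) * (x : ℝ) * (x : ℝ) ^ (-τ)
          ≤ (x : ℝ) ^ ((p : ℝ) - p / q - 1) * (x : ℝ) * (x : ℝ) ^ (-τ) *
            (β ^ (q - 1) * (x : ℝ) ^ (τ - τ')) := le_mul_of_one_le_right h7.le h1
        _ = β ^ (q - 1) * ((x : ℝ) ^ ((p : ℝ) - p / q - 1) * (x : ℝ)) *
            ((x : ℝ) ^ (-τ) * (x : ℝ) ^ (τ - τ')) := by ring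
    linarith
  · show (lam ^ ((1 : ℝ) / q)) ^ q = lam
    rw [← Real.rpow_natCast, ← Real.rpow_mul hlam.le, one_div_mul_cancel hq0, Real.rpow_one]

theorem t_VUP : Pool.Agent.N656.MD.S_VUP := by
  intro p q hq hqp hW τ hτ a b ha
  have hq0 : (0 : ℝ) < q := by exact_mod_cast (by omega : 0 < q)
  have hp0 : (0 : ℝ) < p := by exact_mod_cast (by omega : 0 < p)
  have hα : 0 < (p : ℝ) / q := by positivity
  have h1 : ∀ τ' : ℝ, 0 < τ' → τ' < τ →
      dimH (V p q τ ∩ Icc a b) ≤ ENNReal.ofReal ((1 + (p : ℝ) / q) / (τ' + (p : ℝ) / q)) := by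
    intro τ' h0 hlt
    refine (dimH_mono (sub_image p q hq τ τ' hlt a b ha)).trans (le_trans ?_ (hW τ' h0))
    have hcd : ContDiffOn ℝ 1 (fun β : ℝ => β ^ q) univ := (contDiff_id.pow q).contDiffOn
    exact hcd.dimH_image_le convex_univ (subset_univ _)
  have h2 : ((p : ℝ) + q) / (q * τ + p) = (1 + (p : ℝ) / q) / (τ + (p : ℝ) / q) := by
    field_simp
    ring
  rw [h2]
  have h3 : Tendsto (fun τ' : ℝ => ENNReal.ofReal ((1 + (p : ℝ) / q) / (τ' + (p : ℝ) / q))) (𝓝[<] τ)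
      (𝓝 (ENNReal.ofReal ((1 + (p : ℝ) / q) / (τ + (p : ℝ) / q)))) := by
    refine Tendsto.mono_left ?_ nhdsWithin_le_nhds
    refine (ENNReal.continuous_ofReal.tendsto _).comp ?_
    refine Tendsto.div tendsto_const_nhds (tendsto_id.add_const _) ?_
    positivity
  refine ge_of_tendsto h3 ?_
  have h4 : ∀ᶠ τ' : ℝ in 𝓝[<] τ, 0 < τ' := nhdsWithin_le_nhds (lt_mem_nhds hτ)
  filter_upwards [h4, self_mem_nhdsWithin] with τ' h5 h6
  exact h1 τ' h5 h6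

end Pool.Agent.N695.MD
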